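import Pool.Agent.Helper28.T3E.StE
import Pool.Agent.Helper14.CV.Basic
import Pool.Agent.Helper98.W3.M_PlA

/-!
# Project T3E, module X2E: the twisted path on symbols of degree at most 2, even characters
-/

set_option autoImplicit false

namespace Pool.Agent.Helper87.T3E

open Pool.Agent.Helper28.T3E
open Pool.Agent.Helper14.CV (Homog EqC act Tl act_act act_add EqC.act EqC.add Homog.act Homog.add)
open Pool.Agent.Helper14.W3 Pool.Agent.Helper78.W3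
open Pool.Agent.Helper14.TT (eXb)

private lemma dXn {q q' : ℕ} (g : ZMod q' → ZMod q') (K : Fn3 q q') (i : ℕ) :
    ((dX ^ i : Module.End (ZMod 3) (Fn3 q q')) (fun x y => K (-x) (g y))) =
      fun x y => (-1) ^ i * ((dX ^ i : Module.End (ZMod 3) (Fn3 q q')) K) (-x - i) (g y) := by
  induction i with
  | zero => funext x y; simp
  | succ i ih =>
    rw [pow_succ', Module.End.mul_apply, ih]
    funext x y
    rw [Module.End.mul_apply]
    show (-1) ^ i * ((dX ^ i : Module.End (ZMod 3) (Fn3 q q')) K) (-(x + 1) - i) (g y) -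
      (-1) ^ i * ((dX ^ i : Module.End (ZMod 3) (Fn3 q q')) K) (-x - i) (g y) =
      (-1) ^ (i + 1) * (((dX ^ i : Module.End (ZMod 3) (Fn3 q q')) K) (-x - (i + 1 : ℕ) + 1) (g y) -
        ((dX ^ i : Module.End (ZMod 3) (Fn3 q q')) K) (-x - (i + 1 : ℕ)) (g y))
    have e1 : -x - ((i + 1 : ℕ) : ZMod q) + 1 = -x - i := by push_cast; ring
    have e2 : -x - ((i + 1 : ℕ) : ZMod q) = -(x + 1) - i := by push_cast; ring
    rw [e1, e2, pow_succ]
    ring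

private lemma dYn {q q' : ℕ} (g : ZMod q → ZMod q) (K : Fn3 q q') (i : ℕ) :
    ((dY ^ i : Module.End (ZMod 3) (Fn3 q q')) (fun x y => K (g x) (-y))) =
      fun x y => (-1) ^ i * ((dY ^ i : Module.End (ZMod 3) (Fn3 q q')) K) (g x) (-y - i) := by
  induction i with
  | zero => funext x y; simp
  | succ i ih =>
    rw [pow_succ', Module.End.mul_apply, ih]
    funext x y
    rw [Module.End.mul_apply]
    show (-1) ^ i * ((dY ^ i : Module.End (ZMod 3) (Fn3 q q')) K) (g x) (-(y + 1) - i) -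
      (-1) ^ i * ((dY ^ i : Module.End (ZMod 3) (Fn3 q q')) K) (g x) (-y - i) =
      (-1) ^ (i + 1) * (((dY ^ i : Module.End (ZMod 3) (Fn3 q q')) K) (g x) (-y - (i + 1 : ℕ) + 1) -
        ((dY ^ i : Module.End (ZMod 3) (Fn3 q q')) K) (g x) (-y - (i + 1 : ℕ)))
    have e1 : -y - ((i + 1 : ℕ) : ZMod q') + 1 = -y - i := by push_cast; ring
    have e2 : -y - ((i + 1 : ℕ) : ZMod q') = -(y + 1) - i := by push_cast; ring
    rw [e1, e2, pow_succ]
    ring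

/-- The degree does not change under `(x, y) ↦ (-x, -y)`. -/
private lemma negW {q q' : ℕ} {d : ℤ} {F : Fn3 q q'} (h : F ∈ Wd3 d) :
    (fun x y => F (-x) (-y) : Fn3 q q') ∈ Wd3 d := by
  intro i j hij
  have h1 := h i j hij
  rw [Module.End.mul_apply] at h1 ⊢
  have h2 := dYn (fun x : ZMod q => -x) F j
  rw [h2]
  have h3 : (fun x y => (-1) ^ j * ((dY ^ j : Module.End (ZMod 3) (Fn3 q q')) F) (-x) (-y - j) : Fn3 q q') =
      ((-1 : ZMod 3) ^ j) • (fun x y => ((dY ^ j : Module.End (ZMod 3) (Fn3 q q')) F) (-x) (-y - j) : Fn3 q q') := by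
    funext x y
    rfl
  rw [h3, map_smul, dXn (fun y : ZMod q' => -y - j) ((dY ^ j : Module.End (ZMod 3) (Fn3 q q')) F) i, h1]
  funext x y
  show (-1 : ZMod 3) ^ j * ((-1) ^ i * 0) = 0
  ring

/-- `G(-p, q)` is a symbol. -/
private lemma symStar {R : Type} [AddCommGroup R] {r s : ℕ} {G : ℤ → ℤ → R} (hG : Sym3 r s G) :
    Sym3 r s (act (-1) 0 0 1 G) := by
  obtain ⟨h1, h2⟩ := hG
  refine ⟨h1.act (by norm_num), fun a b c d hd hb hc => ?_⟩
  have e1 : act a b c d (act (-1) 0 0 1 G) = act (-1) 0 0 1 (act a (-b) (-c) d G) := by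
    rw [act_act, act_act]
    congr 1 <;> ring
  rw [e1]
  exact (h2 a (-b) (-c) d (by linear_combination hd) ((dvd_neg).2 hb) ((dvd_neg).2 hc)).act
    (by norm_num)

private lemma symAdd {R : Type} [AddCommGroup R] {r s : ℕ} {G H : ℤ → ℤ → R} (hG : Sym3 r s G)
    (hH : Sym3 r s H) : Sym3 r s (G + H) :=
  ⟨hG.1.add hH.1, fun a b c d hd hb hc => by
    rw [act_add]
    exact (hG.2 a b c d hd hb hc).add (hH.2 a b c d hd hb hc)⟩

/-- The plane functions of the sum. -/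
private lemma pfH (hEdg : S3Edg) {r s : ℕ} {G : ℤ → ℤ → ZMod 3} (hG : Sym3 (r + 1) (s + 1) G)
    (i j : Fin 3) (hij : e3 j = -e3 i) (x : ZMod (3 ^ r)) (y : ZMod (3 ^ s)) :
    pf (G + act (-1) 0 0 1 G) i x y = pf G i x y + pf G j (-x) (-y) := by
  have hSH := symAdd hG (symStar hG)
  have hHom := hG.1
  have hP := Pool.Agent.Helper98.W3.hPlA 1 r s x y
  unfold pf
  generalize (x.val : ℤ) = b at hP
  generalize rY3 1 x y = c at hP
  generalize (1 + 3 ^ (1 + 1) * b * c : ℤ) = d at hP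
  have hP1 := hP
  obtain ⟨p1, p2, p3⟩ := hP
  have hP' : Pl3 1 1 (-b) (-c) d (-x) (-y) := by
    refine ⟨by linear_combination p1, ?_, ?_⟩
    · push_cast
      rw [p2]
      ring
    · push_cast
      rw [p3]
      ring
  have n1 : (1 : ℤ) ≠ 0 ∨ (0 : ℤ) ≠ 0 := Or.inl one_ne_zero
  have n2 : ∀ e : ℤ, e ≠ 0 ∨ (1 : ℤ) ≠ 0 := fun _ => Or.inr one_ne_zero
  have q1 := hEdg (ZMod 3) _ 1 r s _ hSH 1 0 (e3 i) 1 n1 (n2 _) x y 1 b c d hP1
  have q2 := hEdg (ZMod 3) _ 1 r s _ hG 1 0 (e3 i) 1 n1 (n2 _) x y 1 b c d hP1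
  have q3 := hEdg (ZMod 3) _ 1 r s _ hG 1 0 (e3 j) 1 n1 (n2 _) (-x) (-y) 1 (-b) (-c) d hP'
  rw [q1, q2, q3, hij]
  generalize e3 i = e
  simp only [Pi.add_apply, act]
  have e1 : (1 * 1 + 3 ^ 1 * (-b) * 0 : ℤ) = 1 := by ring
  have e2 : (3 * (-c) * 1 + d * 0 : ℤ) = -(3 * c) := by ring
  have e3' : (1 * -e + 3 ^ 1 * (-b) * 1 : ℤ) = -(e + 3 * b) := by ring
  have e4 : (3 * (-c) * -e + d * 1 : ℤ) = 3 * c * e + d := by ring
  have e5 : (1 * 1 + 3 ^ 1 * b * 0 : ℤ) = 1 := by ring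
  have e6 : (3 * c * 1 + d * 0 : ℤ) = 3 * c := by ring
  have e7 : (1 * e + 3 ^ 1 * b * 1 : ℤ) = e + 3 * b := by ring
  have e8 : (3 * c * e + d * 1 : ℤ) = 3 * c * e + d := by ring
  rw [e1, e2, e3', e4, e5, e6, e7, e8]
  have f1 : (-1 * 1 + 0 * (3 * c) : ℤ) = -1 := by ring
  have f2 : (0 * 1 + 1 * (3 * c) : ℤ) = 3 * c := by ring
  have f3 : (-1 * (e + 3 * b) + 0 * (3 * c * e + d) : ℤ) = -(e + 3 * b) := by ring
  have f4 : (0 * (e + 3 * b) + 1 * (3 * c * e + d) : ℤ) = 3 * c * e + d := by ring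
  rw [f1, f2, f3, f4]
  have f5 : G (-1) (3 * c) = G 1 (-(3 * c)) := by
    have := hHom (-1) 1 (-(3 * c)) (by norm_num) (Or.inl one_ne_zero)
    rw [← this]
    congr 1 <;> ring
  rw [f5]
  ring


private lemma th_add (a b : ZMod 3) : th (a + b) = th a + th b := by revert a b; decide
private lemma th_sub (a b : ZMod 3) : th (a - b) = th a - th b := by revert a b; decide
private lemma th_inj (a b : ZMod 3) (h : th a = th b) : a = b := by revert a b; decide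
private lemma th_mul (a b : ZMod 3) : th (a * b) = ((a.val : ℕ) : ZMod 9) * th b := by revert a b; decide

private lemma th_int (N : ℤ) : th (N : ZMod 3) = 3 * (N : ZMod 9) := by
  obtain ⟨k, j, h, hj⟩ : ∃ k j : ℤ, N = 3 * k + j ∧ (j = 0 ∨ j = 1 ∨ j = 2) := by
    refine ⟨N / 3, N % 3, ?_, ?_⟩ <;> omega
  have e1 : (N : ZMod 3) = (j : ZMod 3) := by
    rw [h]
    push_cast
    have : (3 : ZMod 3) = 0 := rfl
    rw [this, zero_mul, zero_add]
  have e2 : 3 * (N : ZMod 9) = 3 * (j : ZMod 9) := by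
    rw [h]
    push_cast
    have : (9 : ZMod 9) = 0 := rfl
    linear_combination (k : ZMod 9) * this
  rw [e1, e2]
  rcases hj with rfl | rfl | rfl <;> decide

private lemma uu_congr (a b k : ℤ) (h : a = b + 27 * k) : ∃ t : ℤ, uu a = uu b + 9 * t := by
  refine ⟨2 * k * b + 27 * k ^ 2, ?_⟩
  unfold uu
  have e : a ^ 2 - 1 = b ^ 2 - 1 + (18 * k * b + 243 * k ^ 2) * 3 := by rw [h]; ring
  rw [e, Int.add_mul_ediv_right _ _ (by norm_num)]
  ring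

private lemma qH_eq (hQ : StQUA) (hBb : S3Bb) (hEdg : S3Edg) {r s : ℕ} (hr : 1 ≤ r) (hs : 1 ≤ s)
    {G : ℤ → ℤ → ZMod 3} (hG : Sym3 (r + 1) (s + 1) G) (hW : (pf G 0 : Fn3 (3 ^ r) (3 ^ s)) ∈ Wd3 2) :
    ((Qo : Module.End (ZMod 3) (Fn3 (3 ^ r) (3 ^ s))) (pf (G + act (-1) 0 0 1 G) 0)) 0 0 =
      2 * ((Qo : Module.End (ZMod 3) (Fn3 (3 ^ r) (3 ^ s))) (pf G 0)) 0 0 := by
  obtain ⟨k0, k1, k2, k3, k5, hk⟩ := hQ hBb r s _ hr hs hW
  have h := pfH hEdg hG 0 0 (by decide)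
  have e : ∀ F : Fn3 (3 ^ r) (3 ^ s), ((Qo : Module.End (ZMod 3) (Fn3 (3 ^ r) (3 ^ s))) F) 0 0 =
      F (0 + 1) (0 + 1) - F (0 + 1) 0 - (F 0 (0 + 1) - F 0 0) := fun _ => rfl
  have c1 : (-(0 + 1) : ZMod (3 ^ r)) = ((-1 : ℤ) : ZMod (3 ^ r)) := by push_cast; ring
  have c2 : (-(0 + 1) : ZMod (3 ^ s)) = ((-1 : ℤ) : ZMod (3 ^ s)) := by push_cast; ring
  have c3 : (-0 : ZMod (3 ^ r)) = ((0 : ℤ) : ZMod (3 ^ r)) := by push_cast; ring
  have c4 : (-0 : ZMod (3 ^ s)) = ((0 : ℤ) : ZMod (3 ^ s)) := by push_cast; ring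
  rw [e (pf (G + act (-1) 0 0 1 G) 0), h, h, h, h, c1, c2, c3, c4, hk, hk, hk, hk]
  have e' := e (pf G 0)
  generalize ((Qo : Module.End (ZMod 3) (Fn3 (3 ^ r) (3 ^ s))) (pf G 0)) 0 0 = q at e' ⊢
  push_cast
  linear_combination -e'

/-- The values of an even symbol at the points `m a / D`. -/
private lemma vals (hBb : S3Bb) (hEdg : S3Edg) (hQ : StQUA) {D r s : ℕ} (hD12 : D % 12 = 5)
    (hr : 1 ≤ r) (hs : 1 ≤ s) {H : ℤ → ℤ → ZMod 3} (hH : Sym3 (r + 1) (s + 1) H)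
    (hW : (pf H 0 : Fn3 (3 ^ r) (3 ^ s)) ∈ Wd3 2) (p1 p2 : ZMod 3)
    (hC : ∀ a b c d : ℤ, a * d - 9 * b * c = 1 → th (H a (3 * c) - H 1 0) =
      ((((Qo : Module.End (ZMod 3) (Fn3 (3 ^ r) (3 ^ s))) (pf H 0)) 0 0).val : ZMod 9) *
        ((nu (3 * b) d : ZMod 9) - ze a) + th (p1 * (c : ZMod 3) ^ 2 + p2 * (uu a : ZMod 3))) :
    ∃ K : ZMod 9, ∀ a : ℤ, IsCoprime a (D : ℤ) →
      th (H (3 ^ (r + 1) * a) D - H 1 0 +
        ((Qo : Module.End (ZMod 3) (Fn3 (3 ^ r) (3 ^ s))) (pf H 0)) 0 0 * (Pool.Agent.Helper28.T3E.Ne (3 ^ (r + 1) * a) D : ZMod 3)) = K := by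
  obtain ⟨k0, k1, k2, k3, k5, hk⟩ := hQ hBb r s _ hr hs hW
  have h3D : IsCoprime (3 : ℤ) (D : ℤ) := by
    rw [show (3 : ℤ) = ((3 : ℕ) : ℤ) from rfl, Nat.isCoprime_iff_coprime,
      Nat.Prime.coprime_iff_not_dvd Nat.prime_three]
    omega
  obtain ⟨α0, z0, h0⟩ : IsCoprime (D : ℤ) (27 : ℤ) := by
    have := (h3D.pow_left (m := 3)).symm
    norm_num at this
    exact this
  set q := ((Qo : Module.End (ZMod 3) (Fn3 (3 ^ r) (3 ^ s))) (pf H 0)) 0 0 with hq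
  refine ⟨((q.val : ℕ) : ZMod 9) * (((2 * (D : ℤ) - 7) / 3 : ℤ) - ze α0) + th (p2 * (uu α0 : ZMod 3)) - th k0,
    fun a ha => ?_⟩
  have hcop : IsCoprime (D : ℤ) (27 * 3 ^ r * a) := by
    have e1 : (27 : ℤ) = 3 ^ 3 := by norm_num
    rw [e1]
    exact ((h3D.symm.pow_right).mul_right (h3D.symm.pow_right)).mul_right ha.symm
  obtain ⟨α, v, hv⟩ := hcop
  obtain ⟨w, z, hw⟩ : IsCoprime (D : ℤ) ((3 : ℤ) ^ s) := h3D.symm.pow_right
  have hdet : α * (D : ℤ) - 9 * (3 ^ r * a) * (-3 * v) = 1 := by linear_combination hv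
  -- the edge
  have hP : Pl3 1 α (3 ^ r * a) (-3 * v) (D : ℤ) (0 : ZMod (3 ^ r)) (((-3 * v * w : ℤ)) : ZMod (3 ^ s)) := by
    refine ⟨by linear_combination hdet, ?_, ?_⟩
    · have : ((3 : ZMod (3 ^ r)) ^ r) = 0 := by
        have := ZMod.natCast_self (3 ^ r)
        push_cast at this
        exact this
      push_cast
      rw [this]
      ring
    · have h1 : ((3 : ZMod (3 ^ s)) ^ s) = 0 := by
        have := ZMod.natCast_self (3 ^ s)
        push_cast at this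
        exact this
      have h2 : ((w * D + z * 3 ^ s : ℤ) : ZMod (3 ^ s)) = 1 := by rw [hw]; simp
      push_cast at h2 ⊢
      rw [h1] at h2
      linear_combination (-(-3 * (v : ZMod (3 ^ s)))) * h2
  have n1 : (1 : ℤ) ≠ 0 ∨ (0 : ℤ) ≠ 0 := Or.inl one_ne_zero
  have n2 : (0 : ℤ) ≠ 0 ∨ (1 : ℤ) ≠ 0 := Or.inr one_ne_zero
  have q1 := hEdg (ZMod 3) _ 1 r s _ hH 1 0 0 1 n1 n2 _ _ _ _ _ _ hP
  have q2 : (pf H 0 : Fn3 (3 ^ r) (3 ^ s)) 0 (((-3 * v * w : ℤ)) : ZMod (3 ^ s)) = k0 := by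
    have h1 := hk 0 (-3 * v * w)
    rw [Int.cast_zero] at h1
    rw [h1]
    have h2 : ((-3 * v * w : ℤ) : ZMod 3) = 0 := by
      push_cast
      have : (3 : ZMod 3) = 0 := rfl
      rw [this]
      ring
    rw [h2]
    push_cast
    ring
  have q3 : (pf H 0 : Fn3 (3 ^ r) (3 ^ s)) 0 (((-3 * v * w : ℤ)) : ZMod (3 ^ s)) =
      edge3 1 1 0 0 1 H 0 (((-3 * v * w : ℤ)) : ZMod (3 ^ s)) := rfl
  rw [← q3, q2] at q1
  have e1 : (α * 1 + 3 ^ 1 * (3 ^ r * a) * 0 : ℤ) = α := by ring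
  have e2 : (3 * (-3 * v) * 1 + (D : ℤ) * 0 : ℤ) = 3 * (-3 * v) := by ring
  have e3' : (α * 0 + 3 ^ 1 * (3 ^ r * a) * 1 : ℤ) = 3 ^ (r + 1) * a := by ring
  have e4 : (3 * (-3 * v) * 0 + (D : ℤ) * 1 : ℤ) = (D : ℤ) := by ring
  rw [e1, e2, e3', e4] at q1
  have q4 := hC α (3 ^ r * a) (-3 * v) D hdet
  have e5 : (3 * (3 ^ r * a) : ℤ) = 3 ^ (r + 1) * a := by ring
  have e6 : ((-3 * v : ℤ) : ZMod 3) = 0 := by
    push_cast
    have : (3 : ZMod 3) = 0 := rfl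
    rw [this]
    ring
  rw [e5, e6] at q4
  have e7 : nu (3 ^ (r + 1) * a) (D : ℤ) = -3 * Pool.Agent.Helper28.T3E.Ne (3 ^ (r + 1) * a) (D : ℤ) + (2 * (D : ℤ) - 7) / 3 := by
    unfold nu
    rw [Int.natAbs_natCast, if_neg (by omega)]
  rw [e7] at q4
  -- the classes of `α`
  have hα : ∃ k : ℤ, α = α0 + 27 * k := by
    refine ⟨α * z0 - 3 ^ r * a * v * α0, ?_⟩
    linear_combination α0 * hv - α * h0
  obtain ⟨k, hk'⟩ := hα
  obtain ⟨t, ht⟩ := uu_congr _ _ _ hk'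
  have hu9 : (uu α : ZMod 9) = (uu α0 : ZMod 9) := by
    rw [ht]
    push_cast
    have : (9 : ZMod 9) = 0 := rfl
    rw [this]
    ring
  have hu3 : (uu α : ZMod 3) = (uu α0 : ZMod 3) := by
    rw [ht]
    push_cast
    have : (9 : ZMod 3) = 0 := rfl
    rw [this]
    ring
  have hze : ze α = ze α0 := by
    unfold ze
    rw [hu9]
  rw [hze, hu3] at q4
  have q5 : H (3 ^ (r + 1) * a) (D : ℤ) - H 1 0 + q * (Pool.Agent.Helper28.T3E.Ne (3 ^ (r + 1) * a) (D : ℤ) : ZMod 3) =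
      (H α (3 * (-3 * v)) - H 1 0) - k0 + q * (Pool.Agent.Helper28.T3E.Ne (3 ^ (r + 1) * a) (D : ℤ) : ZMod 3) := by
    linear_combination q1
  rw [q5, th_add, th_sub, q4, th_mul, th_int]
  have e8 : p1 * (0 : ZMod 3) ^ 2 + p2 * (uu α0 : ZMod 3) = p2 * (uu α0 : ZMod 3) := by ring
  rw [e8]
  push_cast
  ring


/-- The twisted path of the sum. -/
private lemma eXb_sum {D r s : ℕ} (hD1 : 1 < D) (hm1 : jacobiSym (-1) D = 1)
    {G : ℤ → ℤ → ZMod 3} (hG : Sym3 (r + 1) (s + 1) G) :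
    eXb D (3 ^ (r + 1)) (G + act (-1) 0 0 1 G) = 2 * eXb D (3 ^ (r + 1)) G := by
  have hHom := hG.1
  have hshift : ∀ p q : ℤ, (p ≠ 0 ∨ q ≠ 0) → G (p + 3 ^ (r + 1) * q) q = G p q := by
    obtain ⟨k, hk⟩ := hG.2 1 (3 ^ (r + 1)) 0 1 (by ring) dvd_rfl (dvd_zero _)
    have h1 := hk 1 0 (Or.inl one_ne_zero)
    simp only [act] at h1 hk
    have h2 : k = 0 := by
      have e1 : (1 * 1 + 3 ^ (r + 1) * 0 : ℤ) = 1 := by ring
      have e2 : (0 * 1 + 1 * 0 : ℤ) = 0 := by ring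
      rw [e1, e2] at h1
      exact (left_eq_add.1 h1)
    intro p q hpq
    have h3 := hk p q hpq
    rw [h2, add_zero] at h3
    rw [← h3]
    congr 1 <;> ring
  have hm : G (-1) 0 = G 1 0 := by
    have := hHom (-1) 1 0 (by norm_num) (Or.inl one_ne_zero)
    rw [← this]
    congr 1
  have hD0 : (D : ℤ) ≠ 0 := by
    have : 0 < D := by omega
    exact_mod_cast this.ne'
  set f : ℕ → ZMod 3 := fun a => jacobiSym (a : ℤ) D • (G (3 ^ (r + 1) * (a : ℤ)) D - G 1 0) with hf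
  set g : ℕ → ZMod 3 := fun a => jacobiSym (a : ℤ) D • (G (-(3 ^ (r + 1) * (a : ℤ))) D - G 1 0) with hg
  have h0 : jacobiSym ((0 : ℕ) : ℤ) D = 0 := by
    rw [Nat.cast_zero]
    exact jacobiSym.zero_left hD1
  have hf0 : f 0 = 0 := by rw [hf]; show jacobiSym ((0 : ℕ) : ℤ) D • _ = _; rw [h0, zero_smul]
  have hg0 : g 0 = 0 := by rw [hg]; show jacobiSym ((0 : ℕ) : ℤ) D • _ = _; rw [h0, zero_smul]
  have hgf : ∀ a, a ≤ D → g a = f (D - a) := by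
    intro a ha
    show jacobiSym (a : ℤ) D • (G (-(3 ^ (r + 1) * (a : ℤ))) D - G 1 0) =
      jacobiSym ((D - a : ℕ) : ℤ) D • (G (3 ^ (r + 1) * ((D - a : ℕ) : ℤ)) D - G 1 0)
    have e1 : G (3 ^ (r + 1) * ((D - a : ℕ) : ℤ)) D = G (-(3 ^ (r + 1) * (a : ℤ))) D := by
      rw [← hshift (-(3 ^ (r + 1) * (a : ℤ))) D (Or.inr hD0)]
      rw [Nat.cast_sub ha]
      congr 1
      ring
    have e2 : jacobiSym ((D - a : ℕ) : ℤ) D = jacobiSym (a : ℤ) D := by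
      rw [Nat.cast_sub ha, jacobiSym.mod_left, show ((D : ℤ) - a) % D = (-1 * (a : ℤ)) % D by
        rw [show ((D : ℤ) - a) = -1 * (a : ℤ) + D by ring, Int.add_emod_right],
        ← jacobiSym.mod_left, jacobiSym.mul_left, hm1, one_mul]
    rw [e1, e2]
  have hsum : ∑ a ∈ Finset.range D, g a = ∑ a ∈ Finset.range D, f a := by
    obtain ⟨n, rfl⟩ : ∃ n, D = n + 1 := ⟨D - 1, by omega⟩
    rw [Finset.sum_range_succ' g, Finset.sum_range_succ' f, hf0, hg0,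
      ← Finset.sum_range_reflect (fun i => f (i + 1)) n]
    congr 1
    refine Finset.sum_congr rfl fun j hj => ?_
    have hj' := Finset.mem_range.1 hj
    rw [hgf (j + 1) (by omega)]
    congr 1
    omega
  have e1 : eXb D (3 ^ (r + 1)) G = ∑ a ∈ Finset.range D, f a := rfl
  have e2 : eXb D (3 ^ (r + 1)) (G + act (-1) 0 0 1 G) =
      ∑ a ∈ Finset.range D, f a + ∑ a ∈ Finset.range D, g a := by
    rw [← Finset.sum_add_distrib]
    unfold eXb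
    refine Finset.sum_congr rfl fun a _ => ?_
    show _ = jacobiSym (a : ℤ) D • (G (3 ^ (r + 1) * (a : ℤ)) D - G 1 0) +
      jacobiSym (a : ℤ) D • (G (-(3 ^ (r + 1) * (a : ℤ))) D - G 1 0)
    rw [← smul_add]
    congr 1
    simp only [Pi.add_apply, act]
    have g1 : (-1 * (3 ^ (r + 1) * (a : ℤ)) + 0 * (D : ℤ) : ℤ) = -(3 ^ (r + 1) * (a : ℤ)) := by ring
    have g2 : (0 * (3 ^ (r + 1) * (a : ℤ)) + 1 * (D : ℤ) : ℤ) = D := by ring
    have g3 : (-1 * 1 + 0 * 0 : ℤ) = -1 := by ring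
    have g4 : (0 * 1 + 1 * 0 : ℤ) = 0 := by ring
    rw [g1, g2, g3, g4, hm]
    ring
  rw [e2, hsum, e1]
  ring

/-- **Module X2E.** -/
theorem hX2E : StX2E := by
  intro hBb hEdg hRel hQ hInd hHom hCFM hCHS D r s G hD1 hsq hD12 hr hs hG hW
  obtain ⟨-, c2, c3, c4, c5⟩ := hCHS D hD1 hsq hD12
  have hH := symAdd hG (symStar hG)
  have hev : ∀ p q, (G + act (-1) 0 0 1 G) (-p) q = (G + act (-1) 0 0 1 G) p q := by
    intro p q
    simp only [Pi.add_apply, act]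
    have g1 : (-1 * -p + 0 * q : ℤ) = p := by ring
    have g2 : (0 * -p + 1 * q : ℤ) = q := by ring
    have g3 : (-1 * p + 0 * q : ℤ) = -p := by ring
    have g4 : (0 * p + 1 * q : ℤ) = q := by ring
    rw [g1, g2, g3, g4, add_comm]
  have hWH : ∀ f, (pf (G + act (-1) 0 0 1 G) f : Fn3 (3 ^ r) (3 ^ s)) ∈ Wd3 2 := by
    intro f
    have key : ∀ i j : Fin 3, e3 j = -e3 i → (pf (G + act (-1) 0 0 1 G) i : Fn3 (3 ^ r) (3 ^ s)) ∈ Wd3 2 := by
      intro i j hij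
      have e : (pf (G + act (-1) 0 0 1 G) i : Fn3 (3 ^ r) (3 ^ s)) =
          (pf G i : Fn3 (3 ^ r) (3 ^ s)) + (fun x y => (pf G j : Fn3 (3 ^ r) (3 ^ s)) (-x) (-y)) := by
        funext x y
        exact pfH hEdg hG i j hij x y
      rw [e]
      exact Submodule.add_mem _ (hW i) (negW (hW j))
    fin_cases f
    · exact key 0 0 (by decide)
    · exact key 1 2 (by decide)
    · exact key 2 1 (by decide)
  obtain ⟨p1, p2, hC⟩ := hCFM hBb hEdg hRel hQ hInd hHom r s _ hr hs hH hev hWH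
  obtain ⟨K, hK⟩ := vals hBb hEdg hQ hD12 hr hs hH (hWH 0) p1 p2 hC
  have hqH := qH_eq hQ hBb hEdg hr hs hG (hW 0)
  have hs2 := eXb_sum hD1 c5 hG
  set H := G + act (-1) 0 0 1 G with hHdef
  set q := ((Qo : Module.End (ZMod 3) (Fn3 (3 ^ r) (3 ^ s))) (pf H 0)) 0 0 with hq
  set K3 : ZMod 3 := H (3 ^ (r + 1) * 1) D - H 1 0 + q * (Pool.Agent.Helper28.T3E.Ne (3 ^ (r + 1) * 1) D : ZMod 3) with hK3
  have hv : ∀ a : ℤ, IsCoprime a (D : ℤ) → H (3 ^ (r + 1) * a) D - H 1 0 =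
      K3 - q * (Pool.Agent.Helper28.T3E.Ne (3 ^ (r + 1) * a) D : ZMod 3) := by
    intro a ha
    have h1 := th_inj _ _ ((hK a ha).trans (hK 1 isCoprime_one_left).symm)
    rw [hK3, ← h1]
    ring
  have h3D : IsCoprime ((3 : ℤ) ^ (r + 1)) (D : ℤ) := by
    refine IsCoprime.pow_left ?_
    rw [show (3 : ℤ) = ((3 : ℕ) : ℤ) from rfl, Nat.isCoprime_iff_coprime,
      Nat.Prime.coprime_iff_not_dvd Nat.prime_three]
    omega
  have hN := c3 _ h3D
  rw [jacobiSym.pow_left, c4] at hN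
  have hsum : eXb D (3 ^ (r + 1)) H = -(q * ((-1) ^ (r + 1) * (2 * (SE D : ZMod 3) ^ 2))) := by
    have h1 : eXb D (3 ^ (r + 1)) H = ∑ a ∈ Finset.range D,
        (K3 * (jacobiSym (a : ℤ) D : ZMod 3) - q * ((jacobiSym (a : ℤ) D *
          Pool.Agent.Helper28.T3E.Ne (3 ^ (r + 1) * a) D : ℤ) : ZMod 3)) := by
      unfold eXb
      refine Finset.sum_congr rfl fun a _ => ?_
      by_cases ha : IsCoprime (a : ℤ) (D : ℤ)
      · rw [hv a ha, zsmul_eq_mul]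
        push_cast
        ring
      · have h0 : jacobiSym (a : ℤ) D = 0 := by
          have : NeZero D := ⟨by omega⟩
          rw [jacobiSym.eq_zero_iff_not_coprime]
          rwa [Int.isCoprime_iff_gcd_eq_one] at ha
        rw [h0]
        simp
    rw [h1, Finset.sum_sub_distrib, ← Finset.mul_sum, ← Finset.mul_sum, ← Int.cast_sum, ← Int.cast_sum, hN, c2]
    push_cast
    ring
  rw [hs2, hqH] at hsum
  have h3 : (3 : ZMod 3) = 0 := rfl
  linear_combination 2 * hsum - (eXb D (3 ^ (r + 1)) G + 3 * ((-1) ^ (r + 1) * (SE D : ZMod 3) ^ 2 * ((Qo : Module.End (ZMod 3) (Fn3 (3 ^ r) (3 ^ s))) (pf G 0)) 0 0)) * h3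

end Pool.Agent.Helper87.T3E
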